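import Pool.Agent.helper61.DP.SpecC

/-!
# Module RGD of the project dp: deterministic gluing
-/

namespace DP

theorem RGD_adj {a : ℤ} (ha : Even a) {u v : V} (h : Adj u v) :
    Adj ((a - u.1, u.2) : V) ((a - v.1, v.2) : V) := by
  rw [Int.even_iff] at ha
  rw [adj_iff] at h ⊢
  simp only
  omega

theorem RGD_conn {c : V → Bool} {a : ℤ} (ha : Even a) {a₁ a₂ d e : ℤ} {u v : V}
    (h : Conn (fun v => c (a - v.1, v.2)) true (rect a₁ a₂ d e) u v) :
    Conn c true (rect (a - a₂) (a - a₁) d e) (a - u.1, u.2) (a - v.1, v.2) := by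
  have hm : ∀ w : V, w ∈ {w | w ∈ rect a₁ a₂ d e ∧ c (a - w.1, w.2) = true} →
      ((a - w.1, w.2) : V) ∈ {w | w ∈ rect (a - a₂) (a - a₁) d e ∧ c w = true} := by
    rintro w ⟨⟨h1, h2, h3, h4⟩, h5⟩
    refine ⟨⟨?_, ?_, h3, h4⟩, h5⟩
    · simp only; omega
    · simp only; omega
  refine Con.induct' h (fun z => Conn c true (rect (a - a₂) (a - a₁) d e)
    (a - u.1, u.2) (a - z.1, z.2)) (Con.refl (hm u h.1)) ?_
  intro x y _ hy hxy hP
  exact Con.step hP (RGD_adj ha hxy) (hm y hy)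

theorem RGD_meet (hRC : RC_stmt) {c : V → Bool} {a b d e : ℤ} {p q u t : V} (hp : p.1 = a)
    (hq : q.1 = b) (hu : u.2 = d) (ht : t.2 = e) (h1 : Conn c true (rect a b d e) p q)
    (h2 : Conn c true (rect a b d e) u t) : Conn c true (rect a b d e) p u := by
  obtain ⟨z, hz1, hz2⟩ := hRC a b d e {z | Conn c true (rect a b d e) p z}
    {z | Conn c true (rect a b d e) u z} (fun w hw => hw.mem_right) (fun w hw => hw.mem_right)
    p q u t hp hq hu ht (Con.cluster h1) (Con.cluster h2)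
  exact Conn.trans hz1 (Conn.symm hz2)

theorem RGD (hRC : RC_stmt) : RGD_stmt := by
  intro c a b h hea ha hab hh h1 h2 h3
  obtain ⟨u, t, y, hu, ht, hy, hut, huy⟩ := h1
  obtain ⟨u', t', y', hu', ht', hy', hut', huy'⟩ := h2
  obtain ⟨p, q, hp, hq, hpq⟩ := h3
  have e1 := RGD_conn hea hut'
  have e2 := RGD_conn hea huy'
  rw [show a - a = 0 by ring, show a - 0 = a by ring] at e1
  rw [show a - 0 = a by ring] at e2
  have m1 : Conn c true (rect 0 a 0 h) p u := RGD_meet hRC hp hq hu ht hpq hut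
  have m2 : Conn c true (rect 0 a 0 h) p (a - u'.1, u'.2) :=
    RGD_meet hRC (u := (a - u'.1, u'.2)) (t := (a - t'.1, t'.2)) hp hq hu' ht' hpq e1
  have i1 : rect 0 a 0 h ⊆ rect (a - b) b 0 (2 * h) := by
    rintro w ⟨w1, w2, w3, w4⟩
    exact ⟨by omega, by omega, by omega, by omega⟩
  have i2 : rect 0 b 0 (2 * h) ⊆ rect (a - b) b 0 (2 * h) := by
    rintro w ⟨w1, w2, w3, w4⟩
    exact ⟨by omega, by omega, by omega, by omega⟩
  have i3 : rect (a - b) a 0 (2 * h) ⊆ rect (a - b) b 0 (2 * h) := by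
    rintro w ⟨w1, w2, w3, w4⟩
    exact ⟨by omega, by omega, by omega, by omega⟩
  refine ⟨(a - y'.1, y'.2), y, by simp only; omega, hy, ?_⟩
  exact ((e2.mono i3).symm.trans (m2.mono i1).symm).trans ((m1.mono i1).trans (huy.mono i2))

end DP
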