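import Pool.Agent.helper61.DP.SpecC

/-!
# Module RR5 of the project dp: a black vertical crossing among the revealed sites
-/

namespace DP

theorem RR5_white {c : V → Bool} {a h : ℤ} {u v : V} (hu : u.1 = 0)
    (huv : Con {w | w ∈ rect 0 a 0 h ∧ (w ∈ RV c a h → c w = false)} u v) :
    v ∈ WL c a h := by
  refine huv.induct' (fun z => z ∈ WL c a h) ?_ ?_
  · have h1 := huv.1
    refine ⟨u, hu, Con.refl ⟨h1.1, h1.2 ⟨h1.1, Or.inl hu⟩⟩⟩
  · rintro x y - hy hxy ⟨u', hu', hc⟩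
    refine ⟨u', hu', hc.step hxy ⟨hy.1, hy.2 ⟨hy.1, Or.inr (Or.inr ⟨x, ⟨u', hu', hc⟩, hxy⟩)⟩⟩⟩

theorem RR5 (hHX : HX_stmt) (hRC : RC_stmt) : RR5_stmt := by
  classical
  intro c a h ha hh hv
  rcases hHX (fun v => decide (v ∈ RV c a h) && c v) false 0 a 0 h ha hh with
    ⟨u, v, hu, hv', huv⟩ | ⟨u, v, hu, hv', huv⟩
  · exfalso
    have h1 : v ∈ WL c a h := by
      refine RR5_white hu (Con.mono ?_ huv)
      rintro w ⟨hw1, hw2⟩
      refine ⟨hw1, fun hw => ?_⟩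
      simpa [hw] using hw2
    obtain ⟨u', hu', hc⟩ := h1
    obtain ⟨p, q, hp, hq, hpq⟩ := hv
    obtain ⟨z, hz1, hz2⟩ := hRC 0 a 0 h {w | w ∈ rect 0 a 0 h ∧ c w = false}
      {w | w ∈ rect 0 a 0 h ∧ c w = true} (fun w hw => hw.1) (fun w hw => hw.1) u' v p q
      hu' hv' hp hq hc hpq
    have h2 := hz1.2
    have h3 := hz2.2
    rw [h2] at h3
    exact Bool.false_ne_true h3
  · refine ⟨u, v, hu, hv', Con.mono ?_ huv⟩
    rintro w ⟨-, hw2⟩
    simp only [Bool.not_false, Bool.and_eq_true, decide_eq_true_eq] at hw2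
    exact ⟨hw2.1, hw2.2⟩

end DP
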